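import Mathlib
import Pool.Agent.Q95.Schatten

/-!
# Pinching for Schatten norms of Hermitian matrices
-/

set_option autoImplicit false

open Matrix
open scoped ENNReal ComplexOrder

namespace Pool.Agent.Q95.PW

open _root_.Q95.Schatten

variable {N : ℕ}

/-- `ℓ_q` norm of a real vector, `q ∈ [1,∞]` -/
noncomputable def lq (q : ℝ≥0∞) (x : Fin N → ℝ) : ℝ :=
  if q = ∞ then ⨆ j, |x j| else (∑ j, |x j| ^ q.toReal) ^ (1 / q.toReal)

/-- the diagonal values `<H v_i, v_i>` in the orthonormal basis given by the columns of `U` -/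
noncomputable def dg (U H : Matrix (Fin N) (Fin N) ℂ) (i : Fin N) : ℝ := ((star U * H * U) i i).re

lemma charpoly_conj (U : unitaryGroup (Fin N) ℂ) (M : Matrix (Fin N) (Fin N) ℂ) :
    ((U : Matrix (Fin N) (Fin N) ℂ) * M * star (U : Matrix (Fin N) (Fin N) ℂ)).charpoly = M.charpoly := by
  have h : (U : Matrix (Fin N) (Fin N) ℂ)⁻¹ = star (U : Matrix (Fin N) (Fin N) ℂ) :=
    Matrix.inv_eq_right_inv (Unitary.coe_mul_star_self U)
  rw [← h]
  exact Matrix.charpoly_units_conj (Unitary.toUnits U) M

/-- the squares of the eigenvalues of a Hermitian matrix are the eigenvalues of `Hᴴ H` -/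
lemma roots_eq {H : Matrix (Fin N) (Fin N) ℂ} (hH : H.IsHermitian) :
    Multiset.map (fun j => (isHermitian_conjTranspose_mul_self H).eigenvalues j) Finset.univ.val =
      Multiset.map (fun j => hH.eigenvalues j ^ 2) Finset.univ.val := by
  have h1 : (Hᴴ * H).charpoly =
      ∏ j, (Polynomial.X - Polynomial.C (((isHermitian_conjTranspose_mul_self H).eigenvalues j : ℝ) : ℂ)) :=
    (isHermitian_conjTranspose_mul_self H).charpoly_eq
  have h2 : (Hᴴ * H).charpoly = ∏ j, (Polynomial.X - Polynomial.C (((hH.eigenvalues j ^ 2 : ℝ) : ℂ))) := by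
    have hsp := hH.spectral_theorem
    rw [Unitary.conjStarAlgAut_apply] at hsp
    have : Hᴴ * H = (hH.eigenvectorUnitary : Matrix (Fin N) (Fin N) ℂ) *
        diagonal (fun j => ((hH.eigenvalues j ^ 2 : ℝ) : ℂ)) *
        star (hH.eigenvectorUnitary : Matrix (Fin N) (Fin N) ℂ) := by
      rw [hH.eq]
      conv_lhs => rw [hsp]
      have hu : star (hH.eigenvectorUnitary : Matrix (Fin N) (Fin N) ℂ) *
          (hH.eigenvectorUnitary : Matrix (Fin N) (Fin N) ℂ) = 1 := Unitary.coe_star_mul_self _
      calc _ = (hH.eigenvectorUnitary : Matrix (Fin N) (Fin N) ℂ) *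
            diagonal (RCLike.ofReal ∘ hH.eigenvalues) *
            (star (hH.eigenvectorUnitary : Matrix (Fin N) (Fin N) ℂ) *
              (hH.eigenvectorUnitary : Matrix (Fin N) (Fin N) ℂ)) *
            diagonal (RCLike.ofReal ∘ hH.eigenvalues) *
            star (hH.eigenvectorUnitary : Matrix (Fin N) (Fin N) ℂ) := by
              simp only [Matrix.mul_assoc]
        _ = _ := by
          rw [hu, Matrix.mul_one, Matrix.mul_assoc (hH.eigenvectorUnitary : Matrix (Fin N) (Fin N) ℂ),
            diagonal_mul_diagonal]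
          congr 3
          funext j
          simp [sq]
    rw [this, charpoly_conj, charpoly_diagonal]
  have h3 := h1.symm.trans h2
  have h4 := congrArg Polynomial.roots h3
  rw [Polynomial.roots_prod _ _ (Finset.prod_ne_zero_iff.2 fun j _ => Polynomial.X_sub_C_ne_zero _),
    Polynomial.roots_prod _ _ (Finset.prod_ne_zero_iff.2 fun j _ => Polynomial.X_sub_C_ne_zero _)] at h4
  simp only [Polynomial.roots_X_sub_C, Multiset.bind_singleton] at h4
  have h5 := congrArg (Multiset.map Complex.re) h4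
  simp only [Multiset.map_map, Function.comp_def, Complex.ofReal_re] at h5
  exact h5

lemma sv_roots {H : Matrix (Fin N) (Fin N) ℂ} (hH : H.IsHermitian) :
    Multiset.map (fun j => sv H j) Finset.univ.val =
      Multiset.map (fun j => |hH.eigenvalues j|) Finset.univ.val := by
  have h := congrArg (Multiset.map Real.sqrt) (roots_eq hH)
  simp only [Multiset.map_map, Function.comp_def, Real.sqrt_sq_eq_abs] at h
  exact h

/-- the Schatten norm of a Hermitian matrix is the `ℓ_q` norm of its eigenvalues -/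
theorem schatten_eq {H : Matrix (Fin N) (Fin N) ℂ} (hH : H.IsHermitian) (q : ℝ≥0∞) :
    schatten q H = lq q hH.eigenvalues := by
  have h := sv_roots hH
  unfold schatten lq
  split_ifs with hq
  · have hr : Set.range (fun j => sv H j) = Set.range (fun j => |hH.eigenvalues j|) := by
      ext x
      have h1 : x ∈ Multiset.map (fun j => sv H j) Finset.univ.val ↔
          x ∈ Multiset.map (fun j => |hH.eigenvalues j|) Finset.univ.val := by rw [h]
      simpa [Multiset.mem_map] using h1
    show sSup _ = sSup _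
    rw [hr]
  · congr 1
    have h1 := congrArg (fun m : Multiset ℝ => (m.map (fun x => x ^ q.toReal)).sum) h
    simpa only [Multiset.map_map, Function.comp_def, Finset.sum] using h1

lemma lq_congr {q : ℝ≥0∞} {x y : Fin N → ℝ}
    (h : Multiset.map x Finset.univ.val = Multiset.map y Finset.univ.val) : lq q x = lq q y := by
  unfold lq
  split_ifs with hq
  · have hr : Set.range (fun j => |x j|) = Set.range (fun j => |y j|) := by
      ext z
      have h1 : z ∈ (Multiset.map x Finset.univ.val).map (fun r => |r|) ↔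
          z ∈ (Multiset.map y Finset.univ.val).map (fun r => |r|) := by rw [h]
      simpa [Multiset.mem_map, Multiset.map_map] using h1
    show sSup _ = sSup _
    rw [hr]
  · congr 1
    have h1 := congrArg (fun m : Multiset ℝ => (m.map (fun x => |x| ^ q.toReal)).sum) h
    simpa only [Multiset.map_map, Function.comp_def, Finset.sum] using h1

/-- if `M` is unitarily equivalent to the real diagonal matrix `d`, then its Schatten norm is the
`ℓ_q` norm of `d` -/
theorem schatten_of_diag {M : Matrix (Fin N) (Fin N) ℂ} (hM : M.IsHermitian) (q : ℝ≥0∞)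
    (U : unitaryGroup (Fin N) ℂ) (d : Fin N → ℝ)
    (h : star (U : Matrix (Fin N) (Fin N) ℂ) * M * (U : Matrix (Fin N) (Fin N) ℂ) =
      diagonal (fun i => (d i : ℂ))) : schatten q M = lq q d := by
  rw [schatten_eq hM]
  refine lq_congr ?_
  have h1 : M.charpoly = ∏ j, (Polynomial.X - Polynomial.C ((hM.eigenvalues j : ℝ) : ℂ)) :=
    hM.charpoly_eq
  have h2 : M.charpoly = ∏ j, (Polynomial.X - Polynomial.C ((d j : ℝ) : ℂ)) := by
    have h3 := charpoly_conj (star U) M
    have h4 : ((star U : unitaryGroup (Fin N) ℂ) : Matrix (Fin N) (Fin N) ℂ) * M *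
        star ((star U : unitaryGroup (Fin N) ℂ) : Matrix (Fin N) (Fin N) ℂ) =
        star (U : Matrix (Fin N) (Fin N) ℂ) * M * (U : Matrix (Fin N) (Fin N) ℂ) := by simp
    rw [← h3, h4, h, charpoly_diagonal]
  have h3 := h1.symm.trans h2
  have h4 := congrArg Polynomial.roots h3
  rw [Polynomial.roots_prod _ _ (Finset.prod_ne_zero_iff.2 fun j _ => Polynomial.X_sub_C_ne_zero _),
    Polynomial.roots_prod _ _ (Finset.prod_ne_zero_iff.2 fun j _ => Polynomial.X_sub_C_ne_zero _)] at h4
  simp only [Polynomial.roots_X_sub_C, Multiset.bind_singleton] at h4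
  have h5 := congrArg (Multiset.map Complex.re) h4
  simp only [Multiset.map_map, Function.comp_def, Complex.ofReal_re] at h5
  exact h5

/-- a doubly stochastic matrix contracts the `ℓ_q` norm -/
theorem lq_stoch {q : ℝ≥0∞} (hq : 1 ≤ q) (S : Fin N → Fin N → ℝ) (hS0 : ∀ i j, 0 ≤ S i j)
    (hS1 : ∀ i, ∑ j, S i j = 1) (hS2 : ∀ j, ∑ i, S i j = 1) (x y : Fin N → ℝ)
    (hxy : ∀ i, |x i| ≤ ∑ j, S i j * |y j|) : lq q x ≤ lq q y := by
  unfold lq
  split_ifs with h
  · rcases isEmpty_or_nonempty (Fin N) with hE | hE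
    · simp [Real.iSup_of_isEmpty]
    · refine ciSup_le fun i => (hxy i).trans ?_
      calc ∑ j, S i j * |y j| ≤ ∑ j, S i j * ⨆ k, |y k| := by
            refine Finset.sum_le_sum fun j _ => mul_le_mul_of_nonneg_left ?_ (hS0 i j)
            exact le_ciSup (f := fun k => |y k|) (Set.finite_range _).bddAbove j
        _ = _ := by rw [← Finset.sum_mul, hS1, one_mul]
  · have hq1 : 1 ≤ q.toReal := by
      have := (ENNReal.toReal_le_toReal ENNReal.one_ne_top h).2 hq
      simpa using this
    refine Real.rpow_le_rpow (Finset.sum_nonneg fun i _ => Real.rpow_nonneg (abs_nonneg _) _) ?_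
      (by positivity)
    calc ∑ i, |x i| ^ q.toReal ≤ ∑ i, (∑ j, S i j * |y j|) ^ q.toReal :=
          Finset.sum_le_sum fun i _ => Real.rpow_le_rpow (abs_nonneg _) (hxy i) (by linarith)
      _ ≤ ∑ i, ∑ j, S i j * |y j| ^ q.toReal := by
          refine Finset.sum_le_sum fun i _ => ?_
          exact Real.rpow_arith_mean_le_arith_mean_rpow Finset.univ (S i) (fun j => |y j|)
            (fun j _ => hS0 i j) (hS1 i) (fun j _ => abs_nonneg _) hq1
      _ = ∑ j, |y j| ^ q.toReal := by
          rw [Finset.sum_comm]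
          refine Finset.sum_congr rfl fun j _ => ?_
          rw [← Finset.sum_mul, hS2, one_mul]

lemma lq_nonneg (q : ℝ≥0∞) (x : Fin N → ℝ) : 0 ≤ lq q x := by
  unfold lq
  split_ifs
  · exact Real.iSup_nonneg fun j => abs_nonneg _
  · exact Real.rpow_nonneg (Finset.sum_nonneg fun i _ => Real.rpow_nonneg (abs_nonneg _) _) _

/-- triangle inequality in the form used here -/
theorem lq_add {q : ℝ≥0∞} (hq : 1 ≤ q) (x y z : Fin N → ℝ) (a b : ℝ) (ha : 0 ≤ a) (hb : 0 ≤ b)
    (h : ∀ i, |x i| ≤ a * |y i| + b * |z i|) : lq q x ≤ a * lq q y + b * lq q z := by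
  unfold lq
  split_ifs with hh
  · rcases isEmpty_or_nonempty (Fin N) with hE | hE
    · simp [Real.iSup_of_isEmpty]
    · refine ciSup_le fun i => (h i).trans ?_
      gcongr
      · exact le_ciSup (f := fun k => |y k|) (Set.finite_range _).bddAbove i
      · exact le_ciSup (f := fun k => |z k|) (Set.finite_range _).bddAbove i
  · have hq1 : 1 ≤ q.toReal := by
      have := (ENNReal.toReal_le_toReal ENNReal.one_ne_top hh).2 hq
      simpa using this
    have hq0 : (0:ℝ) < q.toReal := by linarith
    calc (∑ j, |x j| ^ q.toReal) ^ (1 / q.toReal)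
        ≤ (∑ j, (a * |y j| + b * |z j|) ^ q.toReal) ^ (1 / q.toReal) := by
          refine Real.rpow_le_rpow (Finset.sum_nonneg fun i _ => Real.rpow_nonneg (abs_nonneg _) _)
            (Finset.sum_le_sum fun i _ => Real.rpow_le_rpow (abs_nonneg _) (h i) hq0.le) (by positivity)
      _ ≤ (∑ j, (a * |y j|) ^ q.toReal) ^ (1 / q.toReal) +
          (∑ j, (b * |z j|) ^ q.toReal) ^ (1 / q.toReal) :=
          Real.Lp_add_le_of_nonneg Finset.univ hq1 (fun i _ => by positivity) (fun i _ => by positivity)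
      _ = _ := by
          congr 1
          · rw [show (∑ j, (a * |y j|) ^ q.toReal) = a ^ q.toReal * ∑ j, |y j| ^ q.toReal by
              rw [Finset.mul_sum]
              exact Finset.sum_congr rfl fun j _ => Real.mul_rpow ha (abs_nonneg _),
              Real.mul_rpow (Real.rpow_nonneg ha _)
                (Finset.sum_nonneg fun i _ => Real.rpow_nonneg (abs_nonneg _) _),
              ← Real.rpow_mul ha, mul_one_div_cancel hq0.ne', Real.rpow_one]
          · rw [show (∑ j, (b * |z j|) ^ q.toReal) = b ^ q.toReal * ∑ j, |z j| ^ q.toReal by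
              rw [Finset.mul_sum]
              exact Finset.sum_congr rfl fun j _ => Real.mul_rpow hb (abs_nonneg _),
              Real.mul_rpow (Real.rpow_nonneg hb _)
                (Finset.sum_nonneg fun i _ => Real.rpow_nonneg (abs_nonneg _) _),
              ← Real.rpow_mul hb, mul_one_div_cancel hq0.ne', Real.rpow_one]

/-- the doubly stochastic matrix of a unitary matrix -/
lemma stoch_row (V : unitaryGroup (Fin N) ℂ) (i : Fin N) :
    ∑ j, ‖(V : Matrix (Fin N) (Fin N) ℂ) i j‖ ^ 2 = 1 := by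
  have hu : (V : Matrix (Fin N) (Fin N) ℂ) * star (V : Matrix (Fin N) (Fin N) ℂ) = 1 :=
    Unitary.coe_mul_star_self V
  have := congrFun (congrFun hu i) i
  rw [mul_apply, one_apply_eq] at this
  have h2 : ((∑ k, ‖(V : Matrix (Fin N) (Fin N) ℂ) i k‖ ^ 2 : ℝ) : ℂ) = ((1 : ℝ) : ℂ) := by
    push_cast
    rw [← this]
    refine Finset.sum_congr rfl fun k _ => ?_
    rw [star_apply, RCLike.star_def, Complex.mul_conj, Complex.normSq_eq_norm_sq]
    push_cast; rfl
  exact_mod_cast h2

lemma stoch_col (V : unitaryGroup (Fin N) ℂ) (j : Fin N) :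
    ∑ i, ‖(V : Matrix (Fin N) (Fin N) ℂ) i j‖ ^ 2 = 1 := by
  have h := stoch_row (star V) j
  simpa [star_apply] using h

/-- pinching: the diagonal values of a Hermitian matrix in any orthonormal basis have smaller
`ℓ_q` norm than the eigenvalues -/
theorem pinch {H : Matrix (Fin N) (Fin N) ℂ} (hH : H.IsHermitian) {q : ℝ≥0∞} (hq : 1 ≤ q)
    (U : unitaryGroup (Fin N) ℂ) : lq q (dg U H) ≤ schatten q H := by
  rw [schatten_eq hH]
  set W : unitaryGroup (Fin N) ℂ := star U * hH.eigenvectorUnitary with hW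
  refine lq_stoch hq (fun i j => ‖(W : Matrix (Fin N) (Fin N) ℂ) i j‖ ^ 2) (fun i j => sq_nonneg _)
    (stoch_row W) (stoch_col W) _ _ fun i => ?_
  have hsp := hH.spectral_theorem
  rw [Unitary.conjStarAlgAut_apply] at hsp
  have h1 : star (U : Matrix (Fin N) (Fin N) ℂ) * H * (U : Matrix (Fin N) (Fin N) ℂ) =
      (W : Matrix (Fin N) (Fin N) ℂ) * diagonal (RCLike.ofReal ∘ hH.eigenvalues) *
        star (W : Matrix (Fin N) (Fin N) ℂ) := by
    conv_lhs => rw [hsp]
    have hWc : (W : Matrix (Fin N) (Fin N) ℂ) = star (U : Matrix (Fin N) (Fin N) ℂ) *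
        (hH.eigenvectorUnitary : Matrix (Fin N) (Fin N) ℂ) := rfl
    rw [hWc, star_mul, star_star]
    simp only [Matrix.mul_assoc]
  have h2 : dg U H i = ∑ j, ‖(W : Matrix (Fin N) (Fin N) ℂ) i j‖ ^ 2 * hH.eigenvalues j := by
    unfold dg
    rw [h1, mul_apply]
    have : ∀ j, ((W : Matrix (Fin N) (Fin N) ℂ) * diagonal (RCLike.ofReal ∘ hH.eigenvalues) :
          Matrix (Fin N) (Fin N) ℂ) i j *
        (star (W : Matrix (Fin N) (Fin N) ℂ)) j i =
        ((‖(W : Matrix (Fin N) (Fin N) ℂ) i j‖ ^ 2 * hH.eigenvalues j : ℝ) : ℂ) := by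
      intro j
      rw [mul_diagonal, star_apply, RCLike.star_def]
      have h3 : (W : Matrix (Fin N) (Fin N) ℂ) i j * (starRingEnd ℂ) ((W : Matrix (Fin N) (Fin N) ℂ) i j) =
          ((‖(W : Matrix (Fin N) (Fin N) ℂ) i j‖ ^ 2 : ℝ) : ℂ) := by
        rw [Complex.mul_conj, Complex.normSq_eq_norm_sq]
      rw [Complex.ofReal_mul, ← h3]
      simp only [Function.comp_apply]
      change _ * ((hH.eigenvalues j : ℝ) : ℂ) * _ = _
      ring
    rw [Finset.sum_congr rfl fun j _ => this j, ← Complex.ofReal_sum, Complex.ofReal_re]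
  rw [h2]
  refine (Finset.abs_sum_le_sum_abs _ _).trans_eq (Finset.sum_congr rfl fun j _ => ?_)
  rw [abs_mul, abs_of_nonneg (sq_nonneg _)]

/-- in the eigenbasis there is equality -/
theorem dg_eig {H : Matrix (Fin N) (Fin N) ℂ} (hH : H.IsHermitian) (i : Fin N) :
    dg hH.eigenvectorUnitary H i = hH.eigenvalues i := by
  have hsp := hH.spectral_theorem
  rw [Unitary.conjStarAlgAut_apply] at hsp
  unfold dg
  have hu : star (hH.eigenvectorUnitary : Matrix (Fin N) (Fin N) ℂ) *
      (hH.eigenvectorUnitary : Matrix (Fin N) (Fin N) ℂ) = 1 := Unitary.coe_star_mul_self _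
  have h1 : star (hH.eigenvectorUnitary : Matrix (Fin N) (Fin N) ℂ) * H *
      (hH.eigenvectorUnitary : Matrix (Fin N) (Fin N) ℂ) = diagonal (RCLike.ofReal ∘ hH.eigenvalues) := by
    conv_lhs => enter [1, 2]; rw [hsp]
    calc _ = (star (hH.eigenvectorUnitary : Matrix (Fin N) (Fin N) ℂ) *
            (hH.eigenvectorUnitary : Matrix (Fin N) (Fin N) ℂ)) *
            diagonal (RCLike.ofReal ∘ hH.eigenvalues) *
            (star (hH.eigenvectorUnitary : Matrix (Fin N) (Fin N) ℂ) *
              (hH.eigenvectorUnitary : Matrix (Fin N) (Fin N) ℂ)) := by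
              simp only [Matrix.mul_assoc]
      _ = _ := by rw [hu, Matrix.one_mul, Matrix.mul_one]
  rw [h1, diagonal_apply_eq]
  simp

end Pool.Agent.Q95.PW
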