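import Pool.Agent.Q95.PW.A

/-!
# The power mean with exponent 1/2 is monotonic for every Schatten norm
-/

set_option autoImplicit false

open Matrix
open scoped ENNReal ComplexOrder

namespace Pool.Agent.Q95.PW

open _root_.Q95.Schatten

variable {N : ℕ}

lemma dg_add (U M L : Matrix (Fin N) (Fin N) ℂ) (a b : ℝ) (i : Fin N) :
    dg U ((a : ℂ) • M + (b : ℂ) • L) i = a * dg U M i + b * dg U L i := by
  unfold dg
  rw [Matrix.mul_add, Matrix.add_mul, Matrix.mul_smul, Matrix.mul_smul, Matrix.smul_mul,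
    Matrix.smul_mul, Matrix.add_apply, Matrix.smul_apply, Matrix.smul_apply]
  simp

/-- `M_s = C_s² - B²` for `C_s = B + s D` -/
lemma step_eq (B D : Matrix (Fin N) (Fin N) ℂ) (s t : ℝ) (ht : t ≠ 0) :
    (B + (s : ℂ) • D) * (B + (s : ℂ) • D) - B * B =
      ((s / t : ℝ) : ℂ) • ((B + (t : ℂ) • D) * (B + (t : ℂ) • D) - B * B) +
        ((-(s * (t - s)) : ℝ) : ℂ) • (D * D) := by
  have ht' : (t : ℂ) ≠ 0 := by exact_mod_cast ht
  simp only [Matrix.mul_add, Matrix.add_mul, Matrix.smul_mul, Matrix.mul_smul, smul_add, smul_sub,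
    smul_smul]
  push_cast
  have h1 : (s : ℂ) / t * t = s := by field_simp
  have h2 : (s : ℂ) / t * (t * t) = s * t := by field_simp
  rw [h1, h2]
  have h3 : ((s : ℂ) * s) • (D * D) = ((s : ℂ) * t) • (D * D) + (-(s * (t - s)) : ℂ) • (D * D) := by
    rw [← add_smul]; congr 1; ring
  rw [h3]
  abel

/-- the square of `D` is bounded by `C² - B²` when `C = B + t D` and `B` are positive semidefinite -/
theorem sq_le {B D : Matrix (Fin N) (Fin N) ℂ} {t : ℝ} (ht : 0 < t) (hB : B.PosSemidef)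
    (hD : D.IsHermitian) (hC : (B + (t : ℂ) • D).PosSemidef) {q : ℝ≥0∞} (hq : 1 ≤ q) :
    t ^ 2 * schatten q (D * D) ≤ schatten q ((B + (t : ℂ) • D) * (B + (t : ℂ) • D) - B * B) := by
  set M := (B + (t : ℂ) • D) * (B + (t : ℂ) • D) - B * B with hM
  have hMh : M.IsHermitian := by
    have h1 : ((B + (t : ℂ) • D) * (B + (t : ℂ) • D)).IsHermitian := by
      rw [Matrix.IsHermitian, conjTranspose_mul, hC.1.eq]
    have h2 : (B * B).IsHermitian := by rw [Matrix.IsHermitian, conjTranspose_mul, hB.1.eq]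
    exact h1.sub h2
  have hDD : (D * D).IsHermitian := by rw [Matrix.IsHermitian, conjTranspose_mul, hD.eq]
  -- eigenbasis of D
  set U := hD.eigenvectorUnitary with hU
  have hsp := hD.spectral_theorem
  rw [Unitary.conjStarAlgAut_apply] at hsp
  set Λ : Matrix (Fin N) (Fin N) ℂ := diagonal (RCLike.ofReal ∘ hD.eigenvalues) with hΛ
  have hu : star (U : Matrix (Fin N) (Fin N) ℂ) * (U : Matrix (Fin N) (Fin N) ℂ) = 1 :=
    Unitary.coe_star_mul_self _
  have hu' : (U : Matrix (Fin N) (Fin N) ℂ) * star (U : Matrix (Fin N) (Fin N) ℂ) = 1 :=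
    Unitary.coe_mul_star_self _
  have hDU : D * (U : Matrix (Fin N) (Fin N) ℂ) = (U : Matrix (Fin N) (Fin N) ℂ) * Λ := by
    conv_lhs => rw [hsp]
    rw [Matrix.mul_assoc, hu, Matrix.mul_one]
  have hUD : star (U : Matrix (Fin N) (Fin N) ℂ) * D = Λ * star (U : Matrix (Fin N) (Fin N) ℂ) := by
    conv_lhs => rw [hsp]
    rw [← Matrix.mul_assoc, ← Matrix.mul_assoc, hu, Matrix.one_mul]
  set B' := star (U : Matrix (Fin N) (Fin N) ℂ) * B * (U : Matrix (Fin N) (Fin N) ℂ) with hB'
  have hM' : star (U : Matrix (Fin N) (Fin N) ℂ) * M * (U : Matrix (Fin N) (Fin N) ℂ) =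
      (t : ℂ) • (B' * Λ + Λ * B') + ((t : ℂ) * t) • (Λ * Λ) := by
    have e1 : M = (t : ℂ) • (B * D + D * B) + ((t : ℂ) * t) • (D * D) := by
      rw [hM]
      simp only [Matrix.mul_add, Matrix.add_mul, Matrix.smul_mul, Matrix.mul_smul, smul_add, smul_smul]
      abel
    rw [e1]
    simp only [Matrix.mul_add, Matrix.add_mul, Matrix.smul_mul, Matrix.mul_smul, smul_add]
    have e2 : star (U : Matrix (Fin N) (Fin N) ℂ) * (B * D) * (U : Matrix (Fin N) (Fin N) ℂ) =
        B' * Λ := by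
      rw [hB']
      calc _ = star (U : Matrix (Fin N) (Fin N) ℂ) * B * (D * (U : Matrix (Fin N) (Fin N) ℂ)) := by
            simp only [Matrix.mul_assoc]
        _ = _ := by rw [hDU]; simp only [Matrix.mul_assoc]
    have e3 : star (U : Matrix (Fin N) (Fin N) ℂ) * (D * B) * (U : Matrix (Fin N) (Fin N) ℂ) =
        Λ * B' := by
      rw [hB']
      calc _ = star (U : Matrix (Fin N) (Fin N) ℂ) * D * (B * (U : Matrix (Fin N) (Fin N) ℂ)) := by
            simp only [Matrix.mul_assoc]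
        _ = _ := by rw [hUD]; simp only [Matrix.mul_assoc]
    have e4 : star (U : Matrix (Fin N) (Fin N) ℂ) * (D * D) * (U : Matrix (Fin N) (Fin N) ℂ) =
        Λ * Λ := by
      calc _ = star (U : Matrix (Fin N) (Fin N) ℂ) * D * (D * (U : Matrix (Fin N) (Fin N) ℂ)) := by
            simp only [Matrix.mul_assoc]
        _ = Λ * star (U : Matrix (Fin N) (Fin N) ℂ) * ((U : Matrix (Fin N) (Fin N) ℂ) * Λ) := by
            rw [hUD, hDU]
        _ = Λ * (star (U : Matrix (Fin N) (Fin N) ℂ) * (U : Matrix (Fin N) (Fin N) ℂ)) * Λ := by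
            simp only [Matrix.mul_assoc]
        _ = _ := by rw [hu, Matrix.mul_one]
    rw [e2, e3, e4]
  -- the diagonal values
  have hb0 : ∀ i, 0 ≤ (B' i i).re := by
    intro i
    have h := (hB.conjTranspose_mul_mul_same (U : Matrix (Fin N) (Fin N) ℂ)).diag_nonneg (i := i)
    exact (Complex.le_def.1 h).1
  have hbc : ∀ i, 0 ≤ (B' i i).re + t * hD.eigenvalues i := by
    intro i
    have h := (hC.conjTranspose_mul_mul_same (U : Matrix (Fin N) (Fin N) ℂ)).diag_nonneg (i := i)
    have e : (U : Matrix (Fin N) (Fin N) ℂ)ᴴ * (B + (t : ℂ) • D) * (U : Matrix (Fin N) (Fin N) ℂ) =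
        B' + (t : ℂ) • Λ := by
      rw [Matrix.mul_add, Matrix.add_mul, Matrix.mul_smul, Matrix.smul_mul]
      congr 2
      change star (U : Matrix (Fin N) (Fin N) ℂ) * D * (U : Matrix (Fin N) (Fin N) ℂ) = Λ
      rw [hUD, Matrix.mul_assoc, hu, Matrix.mul_one]
    rw [e] at h
    have h2 := (Complex.le_def.1 h).1
    simpa [hΛ, Matrix.add_apply, Matrix.smul_apply, diagonal_apply_eq] using h2
  have hdM : ∀ i, dg U M i = 2 * t * hD.eigenvalues i * (B' i i).re + t ^ 2 * hD.eigenvalues i ^ 2 := by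
    intro i
    unfold dg
    rw [hM']
    simp only [hΛ, Matrix.add_apply, Matrix.smul_apply, mul_diagonal, diagonal_mul, diagonal_mul_diagonal,
      diagonal_apply_eq, Function.comp_apply, smul_eq_mul]
    simp [Complex.add_re, Complex.mul_re]
    ring
  have hdD : ∀ i, dg U (D * D) i = hD.eigenvalues i ^ 2 := by
    intro i
    unfold dg
    have e4 : star (U : Matrix (Fin N) (Fin N) ℂ) * (D * D) * (U : Matrix (Fin N) (Fin N) ℂ) =
        Λ * Λ := by
      calc _ = star (U : Matrix (Fin N) (Fin N) ℂ) * D * (D * (U : Matrix (Fin N) (Fin N) ℂ)) := by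
            simp only [Matrix.mul_assoc]
        _ = Λ * star (U : Matrix (Fin N) (Fin N) ℂ) * ((U : Matrix (Fin N) (Fin N) ℂ) * Λ) := by
            rw [hUD, hDU]
        _ = Λ * (star (U : Matrix (Fin N) (Fin N) ℂ) * (U : Matrix (Fin N) (Fin N) ℂ)) * Λ := by
            simp only [Matrix.mul_assoc]
        _ = _ := by rw [hu, Matrix.mul_one]
    rw [e4, hΛ, diagonal_mul_diagonal, diagonal_apply_eq]
    simp [sq]
  have habs : ∀ i, t ^ 2 * hD.eigenvalues i ^ 2 ≤ |dg U M i| := by
    intro i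
    rw [hdM]
    have h0 := hb0 i
    have h1 := hbc i
    set l := hD.eigenvalues i
    set b := (B' i i).re
    rcases le_total 0 l with hl | hl
    · rw [abs_of_nonneg (by positivity)]
      have : 0 ≤ 2 * t * l * b := by positivity
      linarith
    · have h3 : 2 * t * l * b + t ^ 2 * l ^ 2 = (t * l) * (2 * b + t * l) := by ring
      have h4 : t * l ≤ 0 := mul_nonpos_of_nonneg_of_nonpos ht.le hl
      rw [h3, abs_mul, abs_of_nonpos h4, abs_of_nonneg (by linarith)]
      nlinarith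
  -- the Schatten norm of D²: its eigenvalues are the squares
  have hDDs : schatten q (D * D) = lq q (fun i => hD.eigenvalues i ^ 2) := by
    refine schatten_of_diag hDD q U _ ?_
    have e4 : star (U : Matrix (Fin N) (Fin N) ℂ) * (D * D) * (U : Matrix (Fin N) (Fin N) ℂ) =
        Λ * Λ := by
      calc _ = star (U : Matrix (Fin N) (Fin N) ℂ) * D * (D * (U : Matrix (Fin N) (Fin N) ℂ)) := by
            simp only [Matrix.mul_assoc]
        _ = Λ * star (U : Matrix (Fin N) (Fin N) ℂ) * ((U : Matrix (Fin N) (Fin N) ℂ) * Λ) := by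
            rw [hUD, hDU]
        _ = Λ * (star (U : Matrix (Fin N) (Fin N) ℂ) * (U : Matrix (Fin N) (Fin N) ℂ)) * Λ := by
            simp only [Matrix.mul_assoc]
        _ = _ := by rw [hu, Matrix.mul_one]
    rw [e4, hΛ, diagonal_mul_diagonal]
    congr 1
    funext i
    simp [sq]
  rw [hDDs]
  have h5 : lq q (fun i => hD.eigenvalues i ^ 2) ≤ (1 / t ^ 2) * lq q (dg U M) + 0 * lq q (dg U M) := by
    refine lq_add hq _ _ _ _ _ (by positivity) le_rfl fun i => ?_
    rw [abs_of_nonneg (sq_nonneg _), zero_mul, add_zero, one_div, ← div_eq_inv_mul,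
      le_div_iff₀ (by positivity)]
    have := habs i
    linarith
  have h6 := pinch hMh hq U
  have h7 : t ^ 2 * ((1 / t ^ 2) * lq q (dg U M) + 0 * lq q (dg U M)) = lq q (dg U M) := by
    field_simp
    ring
  calc _ ≤ t ^ 2 * ((1 / t ^ 2) * lq q (dg U M) + 0 * lq q (dg U M)) := by gcongr
    _ = _ := h7
    _ ≤ _ := h6

end Pool.Agent.Q95.PW
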