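import Pool.Agent.Q95.PW.B

/-!
# Weighted power means by functional calculus, exponent 1/2
-/

set_option autoImplicit false

open Matrix
open scoped ENNReal ComplexOrder

namespace Pool.Agent.Q95.PW

open _root_.Q95.Schatten

/-- the power `X ^ p` of a positive definite matrix, by functional calculus -/
noncomputable def mpow {N : ℕ} (p : ℝ) (X : Matrix (Fin N) (Fin N) ℂ) : Matrix (Fin N) (Fin N) ℂ :=
  cfc (fun x : ℝ => x ^ p) X

/-- the weighted power mean `(t X^p + (1-t) Y^p)^(1/p)` -/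
noncomputable def mean {N : ℕ} (p t : ℝ) (X Y : Matrix (Fin N) (Fin N) ℂ) :
    Matrix (Fin N) (Fin N) ℂ :=
  mpow (1 / p) ((t : ℂ) • mpow p X + ((1 - t : ℝ) : ℂ) • mpow p Y)

/-- the power mean with exponent `p` is monotonic with respect to the Schatten `q`-metric -/
def Monotonic (p : ℝ) (q : ℝ≥0∞) : Prop :=
  ∀ (N : ℕ) (X Y : Matrix (Fin N) (Fin N) ℂ), X.PosDef → Y.PosDef →
    MonotoneOn (fun t : ℝ => schatten q (mean p t X Y - Y)) (Set.Icc 0 1)

variable {N : ℕ}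

lemma half_eq {X : Matrix (Fin N) (Fin N) ℂ} (hX : X.PosDef) :
    (mpow (1 / 2) X).PosSemidef ∧ mpow (1 / 2) X * mpow (1 / 2) X = X := by
  unfold mpow
  rw [hX.1.cfc_eq]
  unfold IsHermitian.cfc
  rw [Unitary.conjStarAlgAut_apply]
  set U := hX.1.eigenvectorUnitary
  have hu : star (U : Matrix (Fin N) (Fin N) ℂ) * (U : Matrix (Fin N) (Fin N) ℂ) = 1 :=
    Unitary.coe_star_mul_self _
  constructor
  · have h1 : (diagonal (RCLike.ofReal ∘ (fun x : ℝ => x ^ (1 / 2 : ℝ)) ∘ hX.1.eigenvalues) :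
        Matrix (Fin N) (Fin N) ℂ).PosSemidef := by
      rw [posSemidef_diagonal_iff]
      intro i
      simp only [Function.comp_apply]
      have : (0:ℝ) ≤ hX.1.eigenvalues i ^ (1 / 2 : ℝ) := Real.rpow_nonneg (hX.eigenvalues_pos i).le _
      exact RCLike.ofReal_nonneg.2 this
    have h2 := h1.mul_mul_conjTranspose_same (U : Matrix (Fin N) (Fin N) ℂ)
    exact h2
  · have hsp := hX.1.spectral_theorem
    rw [Unitary.conjStarAlgAut_apply] at hsp
    conv_rhs => rw [hsp]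
    set Λ : Matrix (Fin N) (Fin N) ℂ :=
      diagonal (RCLike.ofReal ∘ (fun x : ℝ => x ^ (1 / 2 : ℝ)) ∘ hX.1.eigenvalues) with hΛ
    have h3 : Λ * Λ = diagonal (RCLike.ofReal ∘ hX.1.eigenvalues) := by
      rw [hΛ, diagonal_mul_diagonal]
      congr 1
      funext i
      simp only [Function.comp_apply]
      have : hX.1.eigenvalues i ^ (1 / 2 : ℝ) * hX.1.eigenvalues i ^ (1 / 2 : ℝ) = hX.1.eigenvalues i := by
        rw [← Real.sqrt_eq_rpow]
        exact Real.mul_self_sqrt (hX.eigenvalues_pos i).le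
      have h4 := congrArg (fun x : ℝ => (x : ℂ)) this
      simpa using h4
    calc _ = (U : Matrix (Fin N) (Fin N) ℂ) * Λ * (star (U : Matrix (Fin N) (Fin N) ℂ) *
          (U : Matrix (Fin N) (Fin N) ℂ)) * Λ * star (U : Matrix (Fin N) (Fin N) ℂ) := by
            simp only [Matrix.mul_assoc]
      _ = (U : Matrix (Fin N) (Fin N) ℂ) * (Λ * Λ) * star (U : Matrix (Fin N) (Fin N) ℂ) := by
            rw [hu, Matrix.mul_one]; simp only [Matrix.mul_assoc]
      _ = _ := by rw [h3]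

lemma two_eq {C : Matrix (Fin N) (Fin N) ℂ} (hC : C.PosSemidef) : mpow (1 / (1 / 2)) C = C * C := by
  unfold mpow
  have h1 : (fun x : ℝ => x ^ (1 / (1 / 2) : ℝ)) = fun x : ℝ => x ^ 2 := by
    funext x
    rw [show (1 / (1 / 2) : ℝ) = ((2 : ℕ) : ℝ) by norm_num, Real.rpow_natCast]
  rw [h1, ← pow_two]
  exact cfc_pow_id C 2 hC.1.isSelfAdjoint

lemma half_inj {X Y : Matrix (Fin N) (Fin N) ℂ} (hX : X.PosDef) (hY : Y.PosDef)
    (h : mpow (1 / 2) X = mpow (1 / 2) Y) : X = Y := by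
  rw [← (half_eq hX).2, h, (half_eq hY).2]

/-- the mean with exponent 1/2 -/
lemma mean_eq {X Y : Matrix (Fin N) (Fin N) ℂ} (hX : X.PosDef) (hY : Y.PosDef) {t : ℝ}
    (h0 : 0 ≤ t) (h1 : t ≤ 1) :
    (mpow (1 / 2) Y + (t : ℂ) • (mpow (1 / 2) X - mpow (1 / 2) Y)).PosSemidef ∧
    mean (1 / 2) t X Y - Y =
      (mpow (1 / 2) Y + (t : ℂ) • (mpow (1 / 2) X - mpow (1 / 2) Y)) *
        (mpow (1 / 2) Y + (t : ℂ) • (mpow (1 / 2) X - mpow (1 / 2) Y)) -
      mpow (1 / 2) Y * mpow (1 / 2) Y := by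
  have e : mpow (1 / 2) Y + (t : ℂ) • (mpow (1 / 2) X - mpow (1 / 2) Y) =
      (t : ℂ) • mpow (1 / 2) X + ((1 - t : ℝ) : ℂ) • mpow (1 / 2) Y := by
    push_cast
    rw [smul_sub, sub_smul, one_smul]
    abel
  have hp : ((t : ℂ) • mpow (1 / 2) X + ((1 - t : ℝ) : ℂ) • mpow (1 / 2) Y).PosSemidef := by
    refine ((half_eq hX).1.smul ?_).add ((half_eq hY).1.smul ?_)
    · exact_mod_cast h0
    · have : (0 : ℝ) ≤ 1 - t := by linarith
      exact_mod_cast this
  rw [e]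
  refine ⟨hp, ?_⟩
  unfold mean
  rw [two_eq hp, (half_eq hY).2]

lemma schatten_nonneg (q : ℝ≥0∞) {M : Matrix (Fin N) (Fin N) ℂ} (hM : M.IsHermitian) :
    0 ≤ schatten q M := by rw [schatten_eq hM]; exact lq_nonneg _ _

lemma schatten_pos {q : ℝ≥0∞} {M : Matrix (Fin N) (Fin N) ℂ} (hM : M.IsHermitian)
    (h : M ≠ 0) : 0 < schatten q M := by
  rw [schatten_eq hM]
  obtain ⟨i, hi⟩ : ∃ i, hM.eigenvalues i ≠ 0 := by
    by_contra hcon
    push Not at hcon
    apply h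
    exact hM.eigenvalues_eq_zero_iff.1 (funext hcon)
  unfold lq
  split_ifs with hh
  · exact (abs_pos.2 hi).trans_le
      (le_ciSup (f := fun k => |hM.eigenvalues k|) (Set.finite_range _).bddAbove i)
  · refine Real.rpow_pos_of_pos ?_ _
    exact Finset.sum_pos' (fun j _ => Real.rpow_nonneg (abs_nonneg _) _)
      ⟨i, Finset.mem_univ _, Real.rpow_pos_of_pos (abs_pos.2 hi) _⟩

/-- the quantitative form -/
theorem half_quant {X Y : Matrix (Fin N) (Fin N) ℂ} (hX : X.PosDef) (hY : Y.PosDef) {s t : ℝ}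
    (hs : 0 ≤ s) (hst : s ≤ t) (ht0 : 0 < t) (ht1 : t ≤ 1) {q : ℝ≥0∞} (hq : 1 ≤ q) :
    schatten q (mean (1 / 2) s X Y - Y) ≤
      (1 - (1 - s / t) ^ 2) * schatten q (mean (1 / 2) t X Y - Y) := by
  obtain ⟨hCs, es⟩ := mean_eq hX hY hs (hst.trans ht1)
  obtain ⟨hCt, et⟩ := mean_eq hX hY ht0.le ht1
  set B := mpow (1 / 2) Y with hB
  set D := mpow (1 / 2) X - B with hD
  have hBp : B.PosSemidef := (half_eq hY).1
  have hDh : D.IsHermitian := (half_eq hX).1.1.sub hBp.1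
  rw [es, et]
  set Ms := (B + (s : ℂ) • D) * (B + (s : ℂ) • D) - B * B with hMs
  set Mt := (B + (t : ℂ) • D) * (B + (t : ℂ) • D) - B * B with hMt
  have hMsh : Ms.IsHermitian := by
    have h1 : ((B + (s : ℂ) • D) * (B + (s : ℂ) • D)).IsHermitian := by
      rw [Matrix.IsHermitian, conjTranspose_mul, hCs.1.eq]
    have h2 : (B * B).IsHermitian := by rw [Matrix.IsHermitian, conjTranspose_mul, hBp.1.eq]
    exact h1.sub h2
  have hMth : Mt.IsHermitian := by
    have h1 : ((B + (t : ℂ) • D) * (B + (t : ℂ) • D)).IsHermitian := by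
      rw [Matrix.IsHermitian, conjTranspose_mul, hCt.1.eq]
    have h2 : (B * B).IsHermitian := by rw [Matrix.IsHermitian, conjTranspose_mul, hBp.1.eq]
    exact h1.sub h2
  have hDD : (D * D).IsHermitian := by rw [Matrix.IsHermitian, conjTranspose_mul, hDh.eq]
  have h1 := sq_le ht0 hBp hDh hCt hq
  have h2 := step_eq B D s t ht0.ne'
  set U := hMsh.eigenvectorUnitary
  have h3 : ∀ i, hMsh.eigenvalues i = s / t * dg U Mt i + (-(s * (t - s))) * dg U (D * D) i := by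
    intro i
    rw [← dg_eig hMsh i, ← dg_add]
    congr 1
  have hts : 0 ≤ t - s := by linarith
  have h4 : lq q hMsh.eigenvalues ≤ s / t * lq q (dg U Mt) + s * (t - s) * lq q (dg U (D * D)) := by
    refine lq_add hq _ _ _ _ _ (by positivity) (by positivity) fun i => ?_
    rw [h3]
    refine (abs_add_le _ _).trans_eq ?_
    rw [abs_mul, abs_mul, abs_of_nonneg (div_nonneg hs ht0.le), abs_neg,
      abs_of_nonneg (mul_nonneg hs hts)]
  have h5 := pinch hMth hq U
  have h6 := pinch hDD hq U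
  rw [schatten_eq hMsh]
  have h7 : s * (t - s) * schatten q (D * D) ≤ s * (t - s) / t ^ 2 * schatten q Mt := by
    have h8 : schatten q (D * D) ≤ schatten q Mt / t ^ 2 := by
      rw [le_div_iff₀ (by positivity)]
      linarith
    calc s * (t - s) * schatten q (D * D) ≤ s * (t - s) * (schatten q Mt / t ^ 2) := by gcongr
      _ = _ := by ring
  calc lq q hMsh.eigenvalues ≤ _ := h4
    _ ≤ s / t * schatten q Mt + s * (t - s) * schatten q (D * D) := by gcongr
    _ ≤ s / t * schatten q Mt + s * (t - s) / t ^ 2 * schatten q Mt := by linarith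
    _ = _ := by
      field_simp
      ring

lemma mean_sub_herm {X Y : Matrix (Fin N) (Fin N) ℂ} (hX : X.PosDef) (hY : Y.PosDef) {t : ℝ}
    (h0 : 0 ≤ t) (h1 : t ≤ 1) : (mean (1 / 2) t X Y - Y).IsHermitian := by
  obtain ⟨hC, e⟩ := mean_eq hX hY h0 h1
  rw [e]
  have h1 := hC
  refine IsHermitian.sub ?_ ?_
  · rw [Matrix.IsHermitian, conjTranspose_mul, hC.1.eq]
  · rw [Matrix.IsHermitian, conjTranspose_mul, (half_eq hY).1.1.eq]

/-- the distance is positive for `t > 0` if `X ≠ Y` -/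
theorem half_pos {X Y : Matrix (Fin N) (Fin N) ℂ} (hX : X.PosDef) (hY : Y.PosDef) (hne : X ≠ Y)
    {t : ℝ} (ht0 : 0 < t) (ht1 : t ≤ 1) {q : ℝ≥0∞} (hq : 1 ≤ q) :
    0 < schatten q (mean (1 / 2) t X Y - Y) := by
  obtain ⟨hCt, et⟩ := mean_eq hX hY ht0.le ht1
  rw [et]
  have hBp := (half_eq hY).1
  have hDh : (mpow (1 / 2) X - mpow (1 / 2) Y).IsHermitian := (half_eq hX).1.1.sub hBp.1
  have hDD : ((mpow (1 / 2) X - mpow (1 / 2) Y) * (mpow (1 / 2) X - mpow (1 / 2) Y)).IsHermitian := by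
    rw [Matrix.IsHermitian, conjTranspose_mul, hDh.eq]
  have h1 := sq_le ht0 hBp hDh hCt hq
  have h2 : (mpow (1 / 2) X - mpow (1 / 2) Y) * (mpow (1 / 2) X - mpow (1 / 2) Y) ≠ 0 := by
    intro h
    have h3 : (mpow (1 / 2) X - mpow (1 / 2) Y)ᴴ * (mpow (1 / 2) X - mpow (1 / 2) Y) = 0 := by
      rw [hDh.eq]; exact h
    rw [conjTranspose_mul_self_eq_zero] at h3
    exact hne (half_inj hX hY (sub_eq_zero.1 h3))
  have h3 := schatten_pos (q := q) hDD h2
  exact lt_of_lt_of_le (mul_pos (by positivity) h3) h1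

end Pool.Agent.Q95.PW
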